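import Mathlib
import Pool.Prelude.Def_F_52c619d0
import Pool.Agent.HDV.Conv
import Pool.Agent.HDV.Sign

/-!
# Duplication congruences and Hardy's question

Let `α, ξ` be real, `|α| > 1`, `ξ ≠ 0`, let `a n` be integers with `a n - ξ α ^ n` bounded, and let
`S n = t a (2n) + ∑ q i j a (n + i) a (n + j)` with integers `t ≠ 0`, `q i j` (`0 ≤ i, j ≤ k`).

* If `n ^ ((k + 2) / 2) ‖S n / a n‖ → 0` for some such `k, q, t`, then `|α|` is a Pisot or a Salem
  number.
* If `a n - ξ α ^ n → 0`, then `α` is algebraic if and only if there are such `k, q, t` with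
  `a n ∣ S n` for all large `n`.

Idea of the proof. Let `c n` be the nearest integer to the quotient. By Euler's identity for the
quadratic form there are real `θ_j` with `c n + ∑ j, θ_j a (n + j) = 2 t α ^ n + small`: all errors
cancel, but not the main term. A simultaneous approximation `q θ ≈ p` gives the integer sequence
`q c n + ∑ j, p_j a (n + j)`, whose distance to a geometric progression is divided by `√N`, while
the logarithm of its coefficient only grows by `O (log N)`; then Pisot's theorem in the uniform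
form `Har.rigid` applies. Conversely, a sequence with a linear recurrence has an exact duplication
formula `det H · a (2n) = A nᵀ adj H M ^ n₁ A n`.
-/

set_option autoImplicit false

namespace Pool.Agent.Results.MP_46933d_nt.DuplicationCongruences

open Filter Topology Pool.Agent.HDV

theorem duplication (α ξ B : ℝ) (a : ℕ → ℤ) (k : ℕ) (q : Fin (k + 1) → Fin (k + 1) → ℤ) (t : ℤ)
    (hα : 1 < |α|) (hξ : ξ ≠ 0) (ht : t ≠ 0) (hB : ∀ n, |(a n : ℝ) - ξ * α ^ n| ≤ B)
    (h : Tendsto (fun n : ℕ => (n : ℝ) ^ ((k + 2 : ℝ) / 2) *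
      distToNearestInt (((t * a (2 * n) + ∑ i, ∑ j, q i j * (a (n + i) * a (n + j)) : ℤ) : ℝ)
        / a n)) atTop (𝓝 0)) : PisotOrSalem α := by
  apply ps_of_abs
  obtain ⟨s, hs, hsα⟩ := exists_sign α
  set β := |α| with hβ
  have hpow : ∀ n, α ^ n = (s : ℝ) ^ n * β ^ n := fun n => by rw [hsα, mul_pow]
  have hss : ∀ n : ℕ, s ^ n * s ^ n = 1 := by
    intro n
    rw [← mul_pow]
    rcases hs with h | h <;> rw [h] <;> norm_num
  set S : ℕ → ℤ := fun n => t * a (2 * n) + ∑ i, ∑ j, q i j * (a (n + i) * a (n + j)) with hS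
  have hdup : ∀ n, dupl k (fun i j => s ^ (i : ℕ) * s ^ (j : ℕ) * q i j) t
      (fun n => s ^ n * a n) n = S n := by
    intro n
    unfold dupl
    have h1 : s ^ (2 * n) = 1 := by rw [two_mul, pow_add]; exact hss n
    simp only [hS, h1, one_mul]
    congr 1
    apply Finset.sum_congr rfl
    intro i _
    apply Finset.sum_congr rfl
    intro j _
    rw [pow_add, pow_add]
    have h2 := hss n
    have h3 := hss i
    have h4 := hss j
    calc s ^ (i : ℕ) * s ^ (j : ℕ) * q i j *
          (s ^ n * s ^ (i : ℕ) * a (n + i) * (s ^ n * s ^ (j : ℕ) * a (n + j)))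
        = (s ^ n * s ^ n) * (s ^ (i : ℕ) * s ^ (i : ℕ)) * (s ^ (j : ℕ) * s ^ (j : ℕ)) *
          (q i j * (a (n + i) * a (n + j))) := by ring
      _ = _ := by rw [h2, h3, h4]; ring
  refine dup_core k (fun i j => s ^ (i : ℕ) * s ^ (j : ℕ) * q i j) t ht β ξ B hα hξ
    (fun n => s ^ n * a n) ?_
    (fun n => distToNearestInt ((S n : ℝ) / a n))
    (fun n => s ^ n * round ((S n : ℝ) / a n)) ?_ ?_
  · intro n
    have h1 : (((s ^ n * a n : ℤ)) : ℝ) - ξ * β ^ n = (s : ℝ) ^ n * (a n - ξ * α ^ n) := by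
      rw [hpow]
      push_cast
      have := sign_pow s hs n
      linear_combination (- (ξ * β ^ n)) * this.symm
    rw [h1, abs_mul, abs_sign_pow s hs n, one_mul]
    exact hB n
  · intro n
    rw [hdup n]
    have h2 := sign_pow s hs n
    have hne : (s : ℝ) ^ n ≠ 0 := by
      intro h0
      rw [h0] at h2
      norm_num at h2
    have h3 : (S n : ℝ) / ((s ^ n * a n : ℤ) : ℝ) - ((s ^ n * round ((S n : ℝ) / a n) : ℤ) : ℝ)
        = (s : ℝ) ^ n * ((S n : ℝ) / a n - round ((S n : ℝ) / a n)) := by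
      push_cast
      have h5 : (1 : ℝ) / (s : ℝ) ^ n = (s : ℝ) ^ n := by
        rw [div_eq_iff hne]; exact h2.symm
      rw [mul_comm ((s : ℝ) ^ n) (a n : ℝ), ← div_div, ← mul_one_div _ ((s : ℝ) ^ n), h5]
      ring
    rw [h3, abs_mul, abs_sign_pow s hs n, one_mul]
    exact le_rfl
  · refine h.congr' ?_
    filter_upwards [eventually_ge_atTop 1] with n hn
    have h2 : Real.sqrt n ^ (k + 2) = (n : ℝ) ^ ((k + 2 : ℝ) / 2) := by
      rw [Real.sqrt_eq_rpow, ← Real.rpow_natCast, ← Real.rpow_mul (by positivity)]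
      congr 1
      push_cast
      ring
    rw [h2]

/-- `S n = t a (2n) + ∑ q i j a (n + i) a (n + j)`. -/
def S (k : ℕ) (q : Fin (k + 1) → Fin (k + 1) → ℤ) (t : ℤ) (a : ℕ → ℤ) (n : ℕ) : ℤ :=
  t * a (2 * n) + ∑ i, ∑ j, q i j * (a (n + (i : ℕ)) * a (n + (j : ℕ)))

theorem criterion (α ξ B : ℝ) (a : ℕ → ℤ) (hα : 1 < |α|) (hξ : ξ ≠ 0)
    (hB : ∀ n, |(a n : ℝ) - ξ * α ^ n| ≤ B)
    (herr : Tendsto (fun n : ℕ => (a n : ℝ) - ξ * α ^ n) atTop (𝓝 0)) :
    IsAlgebraic ℚ α ↔ ∃ (k : ℕ) (q : Fin (k + 1) → Fin (k + 1) → ℤ) (t : ℤ), t ≠ 0 ∧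
      ∀ᶠ n : ℕ in atTop, a n ∣ S k q t a n := by
  have hξ0 : 0 < |ξ| := abs_pos.mpr hξ
  have hlarge : ∀ᶠ n in atTop, a n ≠ 0 := by
    have h1 : Tendsto (fun n : ℕ => |ξ| * |α| ^ n) atTop atTop :=
      (tendsto_pow_atTop_atTop_of_one_lt hα).const_mul_atTop hξ0
    filter_upwards [h1.eventually_ge_atTop (B + 1)] with n hn hzero
    have h2 := hB n
    rw [hzero, Int.cast_zero, zero_sub, abs_neg, abs_mul, abs_pow] at h2
    linarith
  constructor
  · intro halg
    -- an integer polynomial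
    have halg' : IsAlgebraic ℤ α := (IsFractionRing.isAlgebraic_iff ℤ ℚ ℝ).mpr halg
    obtain ⟨P, hP0, hPα⟩ := halg'
    have hPr : (P.map (Int.castRingHom ℝ)).eval α = 0 := by
      rw [Polynomial.eval_map]
      exact hPα
    have h1 : ∀ n, ((Har.act P a n : ℤ) : ℝ)
        = Har.act (P.map (Int.castRingHom ℝ)) (fun n => (a n : ℝ) - ξ * α ^ n) n := by
      intro n
      rw [← act_castZR P a n]
      have h2 : Har.act (P.map (Int.castRingHom ℝ)) (fun n => (a n : ℝ) - ξ * α ^ n)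
          = Har.act (P.map (Int.castRingHom ℝ)) (fun n => (a n : ℝ))
            - Har.act (P.map (Int.castRingHom ℝ)) (fun n => ξ * α ^ n) := by
        unfold Har.act
        rw [← map_sub]
        rfl
      have h3 : Har.act (P.map (Int.castRingHom ℝ)) (fun n => ξ * α ^ n) n = 0 := by
        rw [Har.act_apply]
        have h4 : ∀ i ∈ Finset.range ((P.map (Int.castRingHom ℝ)).natDegree + 1),
            (P.map (Int.castRingHom ℝ)).coeff i * (ξ * α ^ (n + i))
              = (ξ * α ^ n) * ((P.map (Int.castRingHom ℝ)).coeff i * α ^ i) := by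
          intro i _
          rw [pow_add]; ring
        rw [Finset.sum_congr rfl h4, ← Finset.mul_sum, ← Polynomial.eval_eq_sum_range, hPr,
          mul_zero]
      rw [h2, Pi.sub_apply, h3, sub_zero]
    have h5 : ∀ᶠ n in atTop, Har.act P a n = 0 := by
      have h6 : Tendsto (fun n => ((Har.act P a n : ℤ) : ℝ)) atTop (𝓝 0) :=
        (Har.act_tendsto_zero _ _ herr).congr fun n => (h1 n).symm
      have h7 : ∀ᶠ n in atTop, |((Har.act P a n : ℤ) : ℝ)| < 1 := by
        have := h6.abs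
        rw [abs_zero] at this
        exact this.eventually (gt_mem_nhds one_pos)
      filter_upwards [h7] with n hn
      exact Int.abs_lt_one_iff.mp (by exact_mod_cast hn)
    obtain ⟨k, q, t, ht, hq⟩ := exists_dup a ⟨P.map (Int.castRingHom ℚ),
      (Polynomial.map_ne_zero_iff (RingHom.injective_int _)).mpr hP0, by
        filter_upwards [h5] with n hn
        rw [act_castZQ, hn, Int.cast_zero]⟩ hlarge.frequently
    refine ⟨k, q, t, ht, ?_⟩
    filter_upwards [hq] with n hn
    have h8 : S k q t a n = 0 := hn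
    exact h8 ▸ dvd_zero _
  · rintro ⟨k, q, t, ht, hq⟩
    have hint : PisotOrSalem α := by
      refine duplication α ξ B a k q t hα hξ ht hB ?_
      refine (tendsto_congr' ?_).mpr tendsto_const_nhds
      filter_upwards [hq, hlarge] with n hn hn0
      obtain ⟨c, hc⟩ := hn
      have h1 : ((t * a (2 * n) + ∑ i, ∑ j, q i j * (a (n + i) * a (n + j)) : ℤ) : ℝ) / a n
          = c := by
        have h2 : (t * a (2 * n) + ∑ i, ∑ j, q i j * (a (n + i) * a (n + j)) : ℤ) = a n * c := hc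
        have h3 : (a n : ℝ) ≠ 0 := by exact_mod_cast hn0
        rw [h2]
        push_cast
        field_simp
      rw [h1]
      unfold distToNearestInt
      rw [round_intCast, sub_self, abs_zero, mul_zero]
    exact (hint.1.tower_top (A := ℚ)).isAlgebraic

/-- **Theorem.** Let `a n` be integers with `a n - ξ α ^ n` bounded, `|α| > 1`, `ξ ≠ 0`. If
`n ^ ((k + 2) / 2) ‖S n / a n‖ → 0` for some `k`, `q` and `t ≠ 0`, then `|α|` is a Pisot or a Salem
number. If `a n - ξ α ^ n → 0`, then `α` is algebraic if and only if `a n ∣ S n` for all large `n`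
for some `k`, `q` and `t ≠ 0`. -/
theorem result :
    ∀ (α ξ B : ℝ) (a : ℕ → ℤ), 1 < |α| → ξ ≠ 0 → (∀ n, |(a n : ℝ) - ξ * α ^ n| ≤ B) →
      (∀ (k : ℕ) (q : Fin (k + 1) → Fin (k + 1) → ℤ) (t : ℤ), t ≠ 0 →
        Tendsto (fun n : ℕ => (n : ℝ) ^ ((k + 2 : ℝ) / 2) *
          distToNearestInt ((S k q t a n : ℝ) / a n)) atTop (𝓝 0) → PisotOrSalem α) ∧
      (Tendsto (fun n : ℕ => (a n : ℝ) - ξ * α ^ n) atTop (𝓝 0) →
        (IsAlgebraic ℚ α ↔ ∃ (k : ℕ) (q : Fin (k + 1) → Fin (k + 1) → ℤ) (t : ℤ), t ≠ 0 ∧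
          ∀ᶠ n : ℕ in atTop, a n ∣ S k q t a n)) :=
  fun α ξ B a h1 h2 h3 =>
    ⟨fun k q t ht h => duplication α ξ B a k q t h1 h2 ht h3 h,
      fun h => criterion α ξ B a h1 h2 h3 h⟩

end Pool.Agent.Results.MP_46933d_nt.DuplicationCongruences
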