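import Mathlib
import Pool.Prelude.Def_F_52c619d0
import Pool.Agent.Lib_helper62.Har.Rigid

/-!
A uniform finite-window version of Pisot's theorem.
-/

set_option autoImplicit false

namespace Pool.Agent.Results.MP_46933d_nt.FiniteWindow

open Har

/-- For every `A > 1` there is `c > 0` such that: if `1 < |α| ≤ A`, `ξ ≠ 0`, `T ≥ 1` is an
integer with `|ξ| ≤ e^T`, and every block of `16 T` consecutive terms satisfies
`∑ ‖ξ α^n‖² ≤ c`, then `α` is an algebraic integer. -/
theorem result :
    ∀ A : ℝ, 1 < A → ∃ c : ℝ, 0 < c ∧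
      ∀ (α ξ : ℝ) (T : ℕ), 1 < |α| → |α| ≤ A → ξ ≠ 0 → 1 ≤ T → |ξ| ≤ Real.exp T →
        (∀ m : ℕ, ∑ k ∈ Finset.range (16 * T), distToNearestInt (ξ * α ^ (m + k)) ^ 2 ≤ c) →
        IsIntegral ℤ α := by
  intro A hA
  refine ⟨1 / (1000 * (1 + A) ^ 4), by positivity, ?_⟩
  intro α ξ T h1 h2 h3 h4 h5 h6
  -- reduce to |α|
  set β := |α| with hβ
  let s : ℕ → ℝ := fun n => if 0 ≤ α then 1 else (-1) ^ n
  have hs : ∀ n, s n = 1 ∨ s n = -1 := by
    intro n
    simp only [s]
    split_ifs
    · exact Or.inl rfl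
    · exact neg_one_pow_eq_or ℝ n
  have hsp : ∀ n, α ^ n = s n * β ^ n := by
    intro n
    simp only [s]
    split_ifs with h0
    · rw [hβ, abs_of_nonneg h0, one_mul]
    · rw [hβ, abs_of_neg (not_le.mp h0), ← mul_pow]
      congr 1
      ring
  let a : ℕ → ℤ := fun n => if s n = 1 then round (ξ * α ^ n) else - round (ξ * α ^ n)
  have hkey : ∀ n, ((a n : ℝ) - ξ * β ^ n) ^ 2 = distToNearestInt (ξ * α ^ n) ^ 2 := by
    intro n
    unfold distToNearestInt
    rw [sq_abs]
    rcases hs n with h | h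
    · have : a n = round (ξ * α ^ n) := by simp [a, h]
      rw [this]
      have h7 := hsp n
      rw [h, one_mul] at h7
      rw [h7]
      ring
    · have : a n = - round (ξ * α ^ n) := by
        have : ¬ (s n = 1) := by rw [h]; norm_num
        simp [a, this]
      rw [this]
      have h7 := hsp n
      rw [h] at h7
      have h8 : β ^ n = - α ^ n := by rw [h7]; ring
      rw [h8]
      push_cast
      ring
  have hblk : Blk (fun k => (a k : ℝ) - ξ * β ^ k) (16 * T) (1 / (1000 * (1 + A) ^ 4)) := by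
    intro m
    refine le_trans (le_of_eq ?_) (h6 m)
    apply Finset.sum_congr rfl
    intro k _
    exact hkey (m + k)
  obtain ⟨P, hP, hPa⟩ := rigid A β ξ h1 h2 T h4 h5 a hblk
  have hint : IsIntegral ℤ β := by
    apply root_of_act P hP a β ξ h1 h3 1 _ hPa
    intro n
    rw [← Real.sqrt_sq_eq_abs, hkey n]
    calc Real.sqrt (distToNearestInt (ξ * α ^ n) ^ 2) ≤ Real.sqrt 1 := by
          apply Real.sqrt_le_sqrt
          unfold distToNearestInt
          rw [sq_abs]
          have := abs_sub_round (ξ * α ^ n)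
          have h9 : |ξ * α ^ n - round (ξ * α ^ n)| ^ 2 ≤ (1 / 2) ^ 2 := by gcongr
          rw [sq_abs] at h9
          linarith
      _ = 1 := Real.sqrt_one
  rcases abs_choice α with h | h
  · rw [hβ, h] at hint; exact hint
  · rw [hβ, h] at hint
    have := hint.neg
    rwa [neg_neg] at this

end Pool.Agent.Results.MP_46933d_nt.FiniteWindow
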