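import Mathlib
import Pool.Agent.HDV.Lin
import Pool.Agent.HDV.Sign

/-!
# Pisot's theorem for linear forms in several integer sequences

Let `α` be real, `|α| > 1`, and let `a₁, …, a_k` be integer sequences with
`a_i n = ξ_i α ^ n + O (1)`. If a real linear form `∑ κ_i a_i n` is within `o (n ^ (- k / 2))` of
`μ α ^ n` with `μ ≠ 0`, then `|α|` is a Pisot or a Salem number. For `k = 1` this is the classical
`n ^ (- 1 / 2)` theorem.

Idea of the proof. A simultaneous approximation `q κ ≈ p` with `q ≤ N ^ ((k - 1) / 2)` gives the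
integer sequence `∑ p_i a_i n`, whose distance to a geometric progression is small compared with
`N ^ (- 1 / 2)`, while the logarithm of its coefficient only grows by `O (log N)`; then Pisot's
theorem in the uniform form `Har.rigid` applies.
-/

set_option autoImplicit false

namespace Pool.Agent.Results.MP_46933d_nt.LinearForms

open Filter Topology Pool.Agent.HDV

theorem linear (α μ : ℝ) (k : ℕ) (κ ξ : Fin k → ℝ) (a : Fin k → ℕ → ℤ) (B : ℝ)
    (hα : 1 < |α|) (hμ : μ ≠ 0) (hB : ∀ i n, |(a i n : ℝ) - ξ i * α ^ n| ≤ B)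
    (h : Tendsto (fun n : ℕ => (n : ℝ) ^ ((k : ℝ) / 2) * |∑ i, κ i * a i n - μ * α ^ n|)
      atTop (𝓝 0)) : PisotOrSalem α := by
  apply ps_of_abs
  obtain ⟨s, hs, hsα⟩ := exists_sign α
  set β := |α| with hβ
  have hpow : ∀ n, α ^ n = (s : ℝ) ^ n * β ^ n := fun n => by rw [hsα, mul_pow]
  -- a pivot
  have hpiv : ∃ j, κ j ≠ 0 := by
    by_contra hcon
    push Not at hcon
    have h0 : ∀ n : ℕ, ∑ i, κ i * (a i n : ℝ) = 0 := fun n =>
      Finset.sum_eq_zero fun i _ => by rw [hcon i, zero_mul]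
    have h1 : ∀ᶠ n : ℕ in atTop, |μ| ≤ (n : ℝ) ^ ((k : ℝ) / 2) *
        |∑ i, κ i * (a i n : ℝ) - μ * α ^ n| := by
      filter_upwards [eventually_ge_atTop 1] with n hn
      rw [h0, zero_sub, abs_neg, abs_mul, abs_pow]
      have h2 : (1 : ℝ) ≤ (n : ℝ) ^ ((k : ℝ) / 2) :=
        Real.one_le_rpow (by exact_mod_cast hn) (by positivity)
      have h3 : (1 : ℝ) ≤ |α| ^ n := one_le_pow₀ hα.le
      have h4 : 0 < |μ| := abs_pos.mpr hμ
      calc |μ| = 1 * (|μ| * 1) := by ring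
        _ ≤ _ := by gcongr
    have h2 : |μ| ≤ 0 := ge_of_tendsto h h1
    exact absurd h2 (not_le.mpr (abs_pos.mpr hμ))
  obtain ⟨j, hj⟩ := hpiv
  obtain ⟨m, rfl⟩ : ∃ m, k = m + 1 := by
    rcases k with _ | m
    · exact j.elim0
    · exact ⟨m, rfl⟩
  have hsucc : ∀ f : Fin (m + 1) → ℝ, ∑ i, f i = f j + ∑ i, f (j.succAbove i) :=
    fun f => Fin.sum_univ_succAbove f j
  refine lin_core β (μ / κ j) hα (div_ne_zero hμ hj) m
    (fun i => κ (j.succAbove i) / κ j) (fun i => ξ (j.succAbove i))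
    (fun n => s ^ n * a j n) (fun i n => s ^ n * a (j.succAbove i) n) B ?_
    (fun n => |∑ i, κ i * (a i n : ℝ) - μ * α ^ n| / |κ j|) ?_ ?_
  · intro i n
    have h1 : (((s ^ n * a (j.succAbove i) n : ℤ)) : ℝ) - ξ (j.succAbove i) * β ^ n
        = (s : ℝ) ^ n * (a (j.succAbove i) n - ξ (j.succAbove i) * α ^ n) := by
      rw [hpow]
      push_cast
      have := sign_pow s hs n
      linear_combination (- (ξ (j.succAbove i) * β ^ n)) * (this.symm.trans rfl)
    rw [h1, abs_mul, abs_sign_pow s hs n, one_mul]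
    exact hB _ _
  · intro n
    have h1 : ((s ^ n * a j n : ℤ) : ℝ) + ∑ i, κ (j.succAbove i) / κ j *
        ((s ^ n * a (j.succAbove i) n : ℤ) : ℝ) - μ / κ j * β ^ n
        = (s : ℝ) ^ n * (∑ i, κ i * (a i n : ℝ) - μ * α ^ n) / κ j := by
      rw [hsucc, hpow]
      push_cast
      have h2 := sign_pow s hs n
      have h3 : ∑ i, κ (j.succAbove i) / κ j * ((s : ℝ) ^ n * (a (j.succAbove i) n : ℝ))
          = (s : ℝ) ^ n * (∑ i, κ (j.succAbove i) * (a (j.succAbove i) n : ℝ)) / κ j := by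
        rw [Finset.mul_sum, Finset.sum_div]
        apply Finset.sum_congr rfl
        intro i _
        ring
      rw [h3]
      field_simp
      linear_combination (- (μ * β ^ n)) * h2.symm
    rw [h1, abs_div, abs_mul, abs_sign_pow s hs n, one_mul]
  · have h1 := h.div_const |κ j|
    rw [zero_div] at h1
    refine h1.congr' ?_
    filter_upwards [eventually_ge_atTop 1] with n hn
    have h2 : Real.sqrt n ^ (m + 1) = (n : ℝ) ^ (((m + 1 : ℕ) : ℝ) / 2) := by
      rw [Real.sqrt_eq_rpow, ← Real.rpow_natCast, ← Real.rpow_mul (by positivity)]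
      congr 1
      ring
    rw [h2]
    ring

/-- **Theorem.** -/
theorem result :
    ∀ (α μ : ℝ) (k : ℕ) (κ ξ : Fin k → ℝ) (a : Fin k → ℕ → ℤ) (B : ℝ), 1 < |α| → μ ≠ 0 →
      (∀ i n, |(a i n : ℝ) - ξ i * α ^ n| ≤ B) →
      Tendsto (fun n : ℕ => (n : ℝ) ^ ((k : ℝ) / 2) * |∑ i, κ i * a i n - μ * α ^ n|)
        atTop (𝓝 0) → PisotOrSalem α :=
  fun α μ k κ ξ a B h1 h2 h3 h4 => linear α μ k κ ξ a B h1 h2 h3 h4

end Pool.Agent.Results.MP_46933d_nt.LinearForms
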