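import Mathlib
import Pool.Prelude.Def_F_52c619d0
import Pool.Agent.Lib_helper62.Har.Final

/-!
A logarithmic lower bound for the energy of `‖ξ α^n‖` on the windows `(N, N^κ]`.
-/

set_option autoImplicit false

namespace Pool.Agent.Results.MP_46933d_nt.LogEnergy

open Har

/-- The extension from large `N` to all `N ≥ 2`. -/
theorem all_of_large (S : ℕ → ℝ) (hS : ∀ N, 2 ≤ N → 0 < S N) (c₁ : ℝ) (hc₁ : 0 < c₁) (N₀ : ℕ)
    (h : ∀ N, N₀ ≤ N → c₁ * Real.log N ≤ S N) :
    ∃ c : ℝ, 0 < c ∧ ∀ N : ℕ, 2 ≤ N → c * Real.log N ≤ S N := by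
  have key : ∀ M : ℕ, ∃ c : ℝ, 0 < c ∧ ∀ N : ℕ, 2 ≤ N → N < M → c * Real.log N ≤ S N := by
    intro M
    induction M with
    | zero => exact ⟨1, one_pos, fun N _ hN => absurd hN (Nat.not_lt_zero N)⟩
    | succ M ih =>
      obtain ⟨c, hc, hcN⟩ := ih
      rcases Nat.lt_or_ge M 2 with hM | hM
      · exact ⟨c, hc, fun N h1 h2 => hcN N h1 (by omega)⟩
      · have hlog : 0 < Real.log M := Real.log_pos (by exact_mod_cast (by omega : 1 < M))
        have hSM := hS M hM
        refine ⟨min c (S M / Real.log M), lt_min hc (div_pos hSM hlog), ?_⟩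
        intro N h1 h2
        have hlogN : 0 < Real.log N := Real.log_pos (by exact_mod_cast (by omega : 1 < N))
        rcases Nat.lt_or_ge N M with h3 | h3
        · exact (mul_le_mul_of_nonneg_right (min_le_left _ _) hlogN.le).trans (hcN N h1 h3)
        · have h4 : N = M := by omega
          rw [h4]
          calc min c (S M / Real.log M) * Real.log M ≤ (S M / Real.log M) * Real.log M :=
                mul_le_mul_of_nonneg_right (min_le_right _ _) hlog.le
            _ = S M := by field_simp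
  obtain ⟨c, hc, hcN⟩ := key N₀
  refine ⟨min c c₁, lt_min hc hc₁, ?_⟩
  intro N hN
  have hlogN : 0 < Real.log N := Real.log_pos (by exact_mod_cast (by omega : 1 < N))
  rcases Nat.lt_or_ge N N₀ with h3 | h3
  · exact (mul_le_mul_of_nonneg_right (min_le_left _ _) hlogN.le).trans (hcN N hN h3)
  · exact (mul_le_mul_of_nonneg_right (min_le_right _ _) hlogN.le).trans (h N h3)

/-- Let `α` be a transcendental real number with `|α| > 1`, let `ξ ≠ 0` be real, and suppose that
`‖ξ α^n‖ ≤ ρ` for all large `n`, with some `ρ < |α| / (1 + |α|)²` (for instance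
`‖ξ α^n‖ → 0`). Then for every `κ > 2` there is `c > 0` such that for EVERY integer `N ≥ 2` the
sum of `‖ξ α^n‖²` over `N < n ≤ N^κ` is at least `c log N`. -/
theorem result :
    ∀ (α ξ κ ρ : ℝ), 1 < |α| → Transcendental ℚ α → ξ ≠ 0 → 2 < κ →
      ρ < |α| / (1 + |α|) ^ 2 →
      (∀ᶠ n : ℕ in Filter.atTop, distToNearestInt (ξ * α ^ n) ≤ ρ) →
      ∃ c : ℝ, 0 < c ∧ ∀ N : ℕ, 2 ≤ N → c * Real.log N ≤
        ∑ n ∈ Finset.Ioc N ⌊(N : ℝ) ^ κ⌋₊, distToNearestInt (ξ * α ^ n) ^ 2 := by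
  intro α ξ κ ρ h1 htr hξ hκ hρ hev
  -- reduce to |α|
  set β := |α| with hβ
  let s : ℕ → ℝ := fun n => if 0 ≤ α then 1 else (-1) ^ n
  have hs : ∀ n, s n = 1 ∨ s n = -1 := by
    intro n
    simp only [s]
    split_ifs
    · exact Or.inl rfl
    · exact neg_one_pow_eq_or ℝ n
  have hsp : ∀ n, α ^ n = s n * β ^ n := by
    intro n
    simp only [s]
    split_ifs with h0
    · rw [hβ, abs_of_nonneg h0, one_mul]
    · rw [hβ, abs_of_neg (not_le.mp h0), ← mul_pow]
      congr 1
      ring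
  let a : ℕ → ℤ := fun n => if s n = 1 then round (ξ * α ^ n) else - round (ξ * α ^ n)
  have hkey : ∀ n, |(a n : ℝ) - ξ * β ^ n| = distToNearestInt (ξ * α ^ n) := by
    intro n
    unfold distToNearestInt
    rcases hs n with h | h
    · have : a n = round (ξ * α ^ n) := by simp [a, h]
      rw [this]
      have h7 := hsp n
      rw [h, one_mul] at h7
      rw [h7, abs_sub_comm]
    · have : a n = - round (ξ * α ^ n) := by
        have : ¬ (s n = 1) := by rw [h]; norm_num
        simp [a, this]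
      rw [this]
      have h7 := hsp n
      rw [h] at h7
      have h8 : β ^ n = - α ^ n := by rw [h7]; ring
      rw [h8]
      push_cast
      congr 1
      ring
  have hhalf : ∀ n, |(a n : ℝ) - ξ * β ^ n| ≤ 1 / 2 := by
    intro n
    rw [hkey]
    unfold distToNearestInt
    exact abs_sub_round _
  have halg : ¬ IsAlgebraic ℚ β := by
    intro h
    apply htr
    rcases le_or_gt 0 α with h0 | h0
    · rw [hβ, abs_of_nonneg h0] at h
      exact h
    · rw [hβ, abs_of_neg h0] at h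
      have := h.neg
      rwa [neg_neg] at this
  obtain ⟨n₀, hn₀⟩ := Filter.eventually_atTop.mp hev
  have hρβ : (1 + β) ^ 2 * ρ < β := by
    rw [lt_div_iff₀ (by positivity)] at hρ
    linarith
  obtain ⟨c₁, hc₁, N₀, hN₀⟩ := final_core β ξ h1 halg hξ a hhalf ρ n₀
    (fun n hn => by rw [hkey]; exact hn₀ n hn) hρβ κ hκ
  have hsq : ∀ n, ((a n : ℝ) - ξ * β ^ n) ^ 2 = distToNearestInt (ξ * α ^ n) ^ 2 := by
    intro n
    rw [← sq_abs, hkey]
  refine all_of_large
    (fun N => ∑ n ∈ Finset.Ioc N ⌊(N : ℝ) ^ κ⌋₊, distToNearestInt (ξ * α ^ n) ^ 2)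
    ?_ c₁ hc₁ N₀ ?_
  · -- positivity
    intro N hN
    have hnn : ∀ n ∈ Finset.Ioc N ⌊(N : ℝ) ^ κ⌋₊, 0 ≤ distToNearestInt (ξ * α ^ n) ^ 2 :=
      fun n _ => sq_nonneg _
    rcases (Finset.sum_nonneg hnn).lt_or_eq with h | h
    · exact h
    exfalso
    have hzero := (Finset.sum_eq_zero_iff_of_nonneg hnn).mp h.symm
    have hfl : N + 2 ≤ ⌊(N : ℝ) ^ κ⌋₊ := by
      apply Nat.le_floor
      have hN' : (2 : ℝ) ≤ N := by exact_mod_cast hN
      have h2 : (N : ℝ) ^ (2 : ℝ) ≤ (N : ℝ) ^ κ :=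
        Real.rpow_le_rpow_of_exponent_le (by linarith) hκ.le
      rw [Real.rpow_two] at h2
      push_cast
      nlinarith
    have hz : ∀ n, N < n → n ≤ N + 2 → (a n : ℝ) = ξ * β ^ n := by
      intro n hn1 hn2
      have h3 := hzero n (Finset.mem_Ioc.mpr ⟨hn1, by omega⟩)
      rw [← hsq] at h3
      have h4 := pow_eq_zero_iff (two_ne_zero) |>.mp h3
      linarith
    have e1 := hz (N + 1) (by omega) (by omega)
    have e2 := hz (N + 2) (by omega) (by omega)
    have hβ0 : β ≠ 0 := by positivity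
    have ha1 : (a (N + 1) : ℝ) ≠ 0 := by rw [e1]; positivity
    have hβq : β = ((a (N + 2) : ℚ) / (a (N + 1) : ℚ) : ℚ) := by
      push_cast
      rw [eq_div_iff ha1, e1, e2]
      ring
    apply halg
    rw [hβq]
    exact isAlgebraic_algebraMap (A := ℝ) ((a (N + 2) : ℚ) / (a (N + 1) : ℚ) : ℚ)
  · intro N hN
    have h2 := hN₀ N hN
    refine h2.trans (le_of_eq ?_)
    apply Finset.sum_congr rfl
    intro n _
    exact hsq n

end Pool.Agent.Results.MP_46933d_nt.LogEnergy
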